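import Mathlib

namespace Pool.Agent.Results.MP_2b20db_nt.Infinite

/-- `D*_n`: differences of complementary divisors -/
def Dstar (n : ℕ) : Set ℤ :=
  {d | ∃ a b : ℕ, a ∈ n.divisors ∧ b ∈ n.divisors ∧ a * b = n ∧ d = |(a : ℤ) - b|}

/-- `D+_n`: sums of two nonzero elements of `D*_n` -/
def Dplus (n : ℕ) : Set ℤ :=
  {d | ∃ x ∈ Dstar n, ∃ y ∈ Dstar n, x ≠ 0 ∧ y ≠ 0 ∧ d = x + y}

/-- the `Δ` property of a positive integer -/
def HasDelta (n : ℕ) : Prop := 1 ≤ n ∧ (Dstar n ∩ Dplus n).Nonempty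

/-- `Δ`-primitive numbers -/
def Primitive (n : ℕ) : Prop :=
  HasDelta n ∧ ¬ ∃ α m : ℕ, 2 ≤ α ∧ 2 ≤ m ∧ n = α ^ 2 * m ∧ HasDelta m

theorem mem_Dstar {n a b : ℕ} (hn : n ≠ 0) (h : a * b = n) : |(a : ℤ) - b| ∈ Dstar n :=
  ⟨a, b, Nat.mem_divisors.mpr ⟨⟨b, h.symm⟩, hn⟩,
    Nat.mem_divisors.mpr ⟨⟨a, by rw [← h, mul_comm]⟩, hn⟩, h, rfl⟩

theorem not_one : ¬ HasDelta 1 := by
  rintro ⟨_, d, _, x, ⟨a, b, ha, hb, _, hx⟩, y, _, hx0, _, _⟩
  simp at ha hb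
  subst ha hb
  exact hx0 (by simpa using hx)

theorem descent (k : ℕ) (h : HasDelta (k ^ 2)) : ∃ j, Primitive (j ^ 2) ∧ j ∣ k := by
  induction k using Nat.strong_induction_on with
  | _ k ih =>
    by_cases hp : Primitive (k ^ 2)
    · exact ⟨k, hp, dvd_rfl⟩
    · have h1 : ∃ α m : ℕ, 2 ≤ α ∧ 2 ≤ m ∧ k ^ 2 = α ^ 2 * m ∧ HasDelta m := by
        by_contra h2
        exact hp ⟨h, h2⟩
      obtain ⟨α, m, hα, hm, e, hd⟩ := h1
      obtain ⟨l, rfl⟩ : α ∣ k := (Nat.pow_dvd_pow_iff two_ne_zero).mp ⟨m, e⟩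
      have e2 : l ^ 2 = m := by
        rw [mul_pow] at e
        exact Nat.eq_of_mul_eq_mul_left (by positivity) e
      have hl : 0 < l := by
        rcases Nat.eq_zero_or_pos l with h0 | h0
        · rw [h0] at e2; omega
        · exact h0
      obtain ⟨j, hj, hjl⟩ := ih l (by nlinarith) (by rwa [e2])
      exact ⟨j, hj, hjl.mul_left α⟩

theorem gen (w A B C D : ℕ) (hw : 1 < w) (hA : 0 < A) (hB : 0 < B) (hD : 0 < D) (hCD : D < C)
    (h : (w : ℤ) ^ 2 * A ^ 2 * C * D - B ^ 2 * C * D =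
      w * A * B * (C ^ 2 - D ^ 2) + (w ^ 2 - 1) * A * B * C * D) :
    HasDelta ((w * A * B * C * D) ^ 2) := by
  have hC : 0 < C := by omega
  have hn : (w * A * B * C * D) ^ 2 ≠ 0 := by positivity
  have m1 := mem_Dstar (a := w ^ 2 * A ^ 2 * C * D) (b := B ^ 2 * C * D) hn (by ring)
  have m2 := mem_Dstar (a := w * A * B * C ^ 2) (b := w * A * B * D ^ 2) hn (by ring)
  have m3 := mem_Dstar (a := w ^ 2 * A * B * C * D) (b := A * B * C * D) hn (by ring)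
  have hw' : (1 : ℤ) < w := by exact_mod_cast hw
  have hA' : (0 : ℤ) < A := by exact_mod_cast hA
  have hB' : (0 : ℤ) < B := by exact_mod_cast hB
  have hD' : (0 : ℤ) < D := by exact_mod_cast hD
  have hCD' : (D : ℤ) < C := by exact_mod_cast hCD
  have p2 : (0 : ℤ) < w * A * B * (C ^ 2 - D ^ 2) :=
    mul_pos (by positivity) (by nlinarith)
  have p3 : (0 : ℤ) < (w ^ 2 - 1) * A * B * C * D := by
    have : (0 : ℤ) < w ^ 2 - 1 := by nlinarith
    have : (0 : ℤ) < C := by omega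
    positivity
  have e2 : ((w * A * B * C ^ 2 : ℕ) : ℤ) - (w * A * B * D ^ 2 : ℕ) =
      w * A * B * (C ^ 2 - D ^ 2) := by push_cast; ring
  have e3 : ((w ^ 2 * A * B * C * D : ℕ) : ℤ) - (A * B * C * D : ℕ) =
      (w ^ 2 - 1) * A * B * C * D := by push_cast; ring
  have e1 : ((w ^ 2 * A ^ 2 * C * D : ℕ) : ℤ) - (B ^ 2 * C * D : ℕ) =
      w * A * B * (C ^ 2 - D ^ 2) + (w ^ 2 - 1) * A * B * C * D := by
    push_cast; exact h
  rw [e1, abs_of_pos (by linarith)] at m1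
  rw [e2, abs_of_pos p2] at m2
  rw [e3, abs_of_pos p3] at m3
  exact ⟨Nat.pos_of_ne_zero hn, _, m1, _, m2, _, m3, p2.ne', p3.ne', rfl⟩

theorem family (s : ℕ) : ∃ k : ℕ, HasDelta (k ^ 2) ∧ Nat.Coprime (s + 1) k := by
  refine ⟨_, gen (16 * s + 17)
    (1534897 + 8617776 * s + 20183936 * s ^ 2 + 25241600 * s ^ 3 + 17776640 * s ^ 4 +
      6684672 * s ^ 5 + 1048576 * s ^ 6)
    (1451087 + 8302800 * s + 19739776 * s ^ 2 + 24963072 * s ^ 3 + 17711104 * s ^ 4 +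
      6684672 * s ^ 5 + 1048576 * s ^ 6)
    (1892033 + 10294592 * s + 23334528 * s ^ 2 + 28203008 * s ^ 3 + 19169280 * s ^ 4 +
      6946816 * s ^ 5 + 1048576 * s ^ 6)
    (1177183 + 6939872 * s + 17032832 * s ^ 2 + 22280192 * s ^ 3 + 16384000 * s ^ 4 +
      6422528 * s ^ 5 + 1048576 * s ^ 6)
    (by omega) (by positivity) (by positivity) (by positivity) (by omega)
    (by push_cast; ring), ?_⟩
  have key : ∀ (x : ℕ) (q e : ℤ), e * e = 1 → (x : ℤ) = e + (s + 1) * q →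
      Nat.Coprime (s + 1) x := by
    intro x q e he hx
    rw [← Nat.isCoprime_iff_coprime]
    exact ⟨-e * q, e, by push_cast; rw [hx]; linear_combination he⟩
  refine Nat.Coprime.mul_right (Nat.Coprime.mul_right (Nat.Coprime.mul_right
    (Nat.Coprime.mul_right ?_ ?_) ?_) ?_) ?_
  · exact key _ 16 1 (by norm_num) (by push_cast; ring)
  · exact key _ (48 + 896 * (s + 1) + 10240 * (s + 1) ^ 2 + 81920 * (s + 1) ^ 3 +
      393216 * (s + 1) ^ 4 + 1048576 * (s + 1) ^ 5) 1 (by norm_num) (by push_cast; ring)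
  · exact key _ (-48 - 896 * (s + 1) - 6144 * (s + 1) ^ 2 + 16384 * (s + 1) ^ 3 +
      393216 * (s + 1) ^ 4 + 1048576 * (s + 1) ^ 5) (-1) (by norm_num) (by push_cast; ring)
  · exact key _ (64 + 1664 * (s + 1) + 22528 * (s + 1) ^ 2 + 163840 * (s + 1) ^ 3 +
      655360 * (s + 1) ^ 4 + 1048576 * (s + 1) ^ 5) 1 (by norm_num) (by push_cast; ring)
  · exact key _ (-32 - 384 * (s + 1) - 2048 * (s + 1) ^ 2 +
      131072 * (s + 1) ^ 4 + 1048576 * (s + 1) ^ 5) (-1) (by norm_num) (by push_cast; ring)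

theorem result : {k : ℕ | 1 ≤ k ∧ Primitive (k ^ 2)}.Infinite := by
  refine Set.infinite_of_not_bddAbove ?_
  rintro ⟨M, hM⟩
  obtain ⟨s, hs⟩ : ∃ s, M.factorial = s + 1 := ⟨M.factorial - 1, by
    have := Nat.factorial_pos M; omega⟩
  obtain ⟨k, hk, hc⟩ := family s
  obtain ⟨j, hj, hjk⟩ := descent k hk
  have hj1 : 1 ≤ j := by
    rcases Nat.eq_zero_or_pos j with h0 | h0
    · have := hj.1.1
      rw [h0] at this; omega
    · exact h0
  have h1 : j ∣ s + 1 := by rw [← hs]; exact Nat.dvd_factorial hj1 (hM ⟨hj1, hj⟩)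
  have h2 : j = 1 := Nat.eq_one_of_dvd_coprimes hc h1 hjk
  rw [h2] at hj
  exact not_one (by simpa using hj.1)

end Pool.Agent.Results.MP_2b20db_nt.Infinite
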